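import Pool.Agent.Helper44.GH.Stmts
import Pool.Agent.Helper44.GF.MAIN

/-!
# Face inequality for the stable exponent (MP_d210aa_gt)
-/

open Finset MeasureTheory Filter Topology Matrix
open scoped ENNReal ContDiff

namespace Pool.Agent.Helper44.GH

open Pool.Agent.Helper44.GF Pool.Agent.Helper44.GN

theorem fst_grid (hH1 : Pool.Agent.Helper44.GF.ST_GH1) (hF : Pool.Agent.Helper44.GN.ST_FLM)
    (hI : ST_FIS) (hG : ST_GLZ) (hM : ST_MMP) (m n : ℕ) (ρ ε c a b ζ : ℝ) (hρ : 1 < ρ)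
    (hε : 0 < ε) (hε2 : ε ≤ 1 / 2) (hc : 0 < c) (hcont : ContinuousOn (Lr ρ ε c) (Set.Ici 0))
    (ha : 0 < a) (hlow : ∀ u, 0 ≤ u → a * Real.sqrt u - b ≤ Lr ρ ε c u) (hζ : 0 < ζ)
    (hζ1 : ζ ≤ 1 / 1000) (hs : (1 + ζ) * (ρ * ε) ≤ 1 / 6) : FI m n (Lr ρ ε c) := by
  obtain ⟨N, M, a', b', ha', hM1, hz1, hcont', hlow', hlim⟩ := hG ρ ε c ζ hρ hε hε2 hc hζ
  refine hF m n (fun k => lam (gd ρ ε c (N k)) (gr ρ (N k) (M k)) (gz ρ ε c (N k) (M k))) _ a' b'
    ha' hcont' hlow' hlim ?_ ?_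
  · intro F
    exact hM n (m + 1) (Lr ρ ε c) a b F.mat ha hcont hlow (main_injective F)
  · intro k
    have hρ0 : 0 < ρ := by linarith
    have hMpos : (0 : ℝ) < M k := by
      have := hM1 k
      exact_mod_cast this
    have hr : ∀ y, 0 < gr ρ (N k) (M k) y := fun y => by
      unfold gr
      exact zpow_pos hρ0 _
    have hz : ∀ y, 0 < gz ρ ε c (N k) (M k) y := fun y => by
      unfold gz
      have := Real.rpow_pos_of_pos hρ0 (-((1 - ε) * (((y.1 : ℕ) : ℝ) - ((N k : ℕ) : ℝ))))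
      positivity
    have hd : 0 < gd ρ ε c (N k) := by
      unfold gd
      have h1 := Real.rpow_pos_of_pos hρ0 (-(ε * ((N k : ℕ) : ℝ)))
      have h2 : 1 < ρ ^ ε := Real.one_lt_rpow hρ hε
      have h3 : 0 < ρ ^ ε - 1 := by linarith
      positivity
    exact hI m n _ (ρ * ε) ζ (gd ρ ε c (N k)) (gr ρ (N k) (M k)) (gz ρ ε c (N k) (M k))
      { s0 := mul_pos hρ0 hε
        k0 := hζ
        k1 := hζ1
        d0 := hd
        r0 := hr
        z0 := hz
        z1 := hz1 k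
        h1 := hH1 ρ ε c (N k) (M k) hρ hε (by linarith) hc (hM1 k)
        hs := hs }

theorem fst_low (q : ℝ) (hq : 1 / 2 ≤ q) (u : ℝ) (hu : 0 ≤ u) :
    1 * Real.sqrt u - 1 ≤ u ^ q := by
  rw [one_mul]
  rcases le_total u 1 with h | h
  · have h1 : Real.sqrt u ≤ 1 := Real.sqrt_le_one.mpr h
    have h2 : 0 ≤ u ^ q := Real.rpow_nonneg hu q
    linarith
  · have h1 : u ^ (1 / 2 : ℝ) ≤ u ^ q := Real.rpow_le_rpow_of_exponent_le h hq
    rw [Real.sqrt_eq_rpow]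
    linarith

theorem fst_cont (q : ℝ) (hq : 0 ≤ q) : ContinuousOn (fun u : ℝ => u ^ q) (Set.Ici 0) :=
  fun u _ => (Real.continuousAt_rpow_const u q (Or.inr hq)).continuousWithinAt

theorem fst_pos (hM : ST_MMP) (m n : ℕ) (q : ℝ) (hq : 1 / 2 ≤ q) (F : Face (m + 1) n) :
    0 < MM (fun u : ℝ => u ^ q) F.mat :=
  hM n (m + 1) (fun u : ℝ => u ^ q) 1 1 F.mat one_pos (fst_cont q (by linarith))
    (fun u hu => fst_low q hq u hu) (main_injective F)

theorem fst_open (hH1 : Pool.Agent.Helper44.GF.ST_GH1) (hF : Pool.Agent.Helper44.GN.ST_FLM)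
    (hI : ST_FIS) (hG : ST_GLZ) (hR : ST_RLZ) (hM : ST_MMP) (m n : ℕ) (p : ℝ)
    (hp : 5 / 3 < p) (hp2 : p < 2) : FI m n (fun u => u ^ (p / 2)) := by
  have hε : 0 < 1 - p / 2 := by linarith
  have hε6 : 1 - p / 2 < 1 / 6 := by linarith
  set ε : ℝ := 1 - p / 2 with hεd
  obtain ⟨ζ, hζ, hζ1, hζ2⟩ : ∃ ζ : ℝ, 0 < ζ ∧ ζ ≤ 1 / 1000 ∧ ζ ≤ 1 / 6 - ε :=
    ⟨min (1 / 1000) (1 / 6 - ε), lt_min (by norm_num) (by linarith), min_le_left _ _,
      min_le_right _ _⟩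
  obtain ⟨ρ, c, a, b, ha, hρ1, hρ2, hc, hcont, hlow, hlim⟩ := hR ε ζ hε (by linarith) hζ
  have hpe : p / 2 = 1 - ε := by rw [hεd]; ring
  rw [hpe]
  refine hF m n (fun k => Lr (ρ k) ε (c k)) _ a b ha hcont hlow hlim ?_ ?_
  · intro F
    exact fst_pos hM m n (1 - ε) (by linarith) F
  · intro k
    refine fst_grid hH1 hF hI hG hM m n (ρ k) ε (c k) a b ζ (hρ1 k) hε (by linarith) (hc k)
      (hcont k) ha (hlow k) hζ hζ1 ?_
    have h1 : ρ k * ε ≤ (1 + ζ) * ε := mul_le_mul_of_nonneg_right (hρ2 k) hε.le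
    have h2 : (1 + ζ) * (ρ k * ε) ≤ (1 + ζ) * ((1 + ζ) * ε) :=
      mul_le_mul_of_nonneg_left h1 (by linarith)
    refine h2.trans ?_
    nlinarith [mul_pos hζ hε, mul_pos hζ hζ, mul_pos (mul_pos hζ hζ) hε]

theorem st_FST (hH1 : Pool.Agent.Helper44.GF.ST_GH1) (hF : Pool.Agent.Helper44.GN.ST_FLM)
    (hI : ST_FIS) (hG : ST_GLZ) (hR : ST_RLZ) (hM : ST_MMP) : ST_FST := by
  intro m n p hp hp2
  rcases hp.lt_or_eq with hp' | hp'
  · exact fst_open hH1 hF hI hG hR hM m n p hp' hp2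
  · have hk : ∀ k : ℕ, 0 < 1 / ((k : ℝ) + 4) ∧ 1 / ((k : ℝ) + 4) ≤ 1 / 4 := by
      intro k
      have h0 : (0 : ℝ) ≤ k := Nat.cast_nonneg k
      exact ⟨by positivity, one_div_le_one_div_of_le (by norm_num) (by linarith)⟩
    refine hF m n (fun k u => u ^ ((5 / 3 + 1 / ((k : ℝ) + 4)) / 2)) (fun u => u ^ (p / 2)) 1 1
      one_pos ?_ ?_ ?_ ?_ ?_
    · intro k
      exact fst_cont _ (by linarith [(hk k).1])
    · intro k u hu
      exact fst_low _ (by linarith [(hk k).1]) u hu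
    · intro u hu
      rcases hu.lt_or_eq with hu' | hu'
      · have hlim : Tendsto (fun k : ℕ => (5 / 3 + 1 / ((k : ℝ) + 4)) / 2) atTop
            (𝓝 (p / 2)) := by
          have h1 : Tendsto (fun k : ℕ => 1 / ((k : ℝ) + 4)) atTop (𝓝 0) := by
            have h2 := tendsto_one_div_add_atTop_nhds_zero_nat (𝕜 := ℝ)
            have h3 := (tendsto_add_atTop_iff_nat 3).mpr h2
            refine h3.congr fun k => ?_
            push_cast
            ring_nf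
          have h4 : Tendsto (fun k : ℕ => (5 / 3 + 1 / ((k : ℝ) + 4)) / 2) atTop
              (𝓝 ((5 / 3 + 0) / 2)) := (h1.const_add (5 / 3)).div_const 2
          rw [← hp']
          rwa [add_zero] at h4
        exact (Real.continuousAt_const_rpow hu'.ne').tendsto.comp hlim
      · subst hu'
        have h1 : (0 : ℝ) ^ (p / 2) = 0 := Real.zero_rpow (by linarith)
        have h2 : ∀ k : ℕ, (0 : ℝ) ^ ((5 / 3 + 1 / ((k : ℝ) + 4)) / 2) = 0 := fun k =>
          Real.zero_rpow (by linarith [(hk k).1])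
        simp only [h1, h2]
        exact tendsto_const_nhds
    · intro F
      exact fst_pos hM m n (p / 2) (by linarith) F
    · intro k
      exact fst_open hH1 hF hI hG hR hM m n _ (by linarith [(hk k).1]) (by linarith [(hk k).2])

end Pool.Agent.Helper44.GH
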